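import Mathlib
import Pool.Agent.MP_12ebf5_al.Defs
import Pool.Agent.MP_12ebf5_al.Final

/-!
MP_12ebf5_al, Q2: the limit of `dim M_i / i ^ n` need not exist.  For every prime `p`, every field
`k` of characteristic `p` and `n = 1` there is a holonomic module for which the sequence is bounded
but does not converge, for every choice of a finite generating set.
-/

set_option autoImplicit false

open Pool.Agent.MP12ebf5

universe u

theorem Pool.Agent.Results.MP_12ebf5_al.LimitDoesNotExist.result
    (p : ℕ) (hp : p.Prime) (k : Type u) [Field k] [CharP k p] :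
    ∃ (M : Type u) (_ : AddCommGroup M) (_ : Module (DiffOps k 1) M) (_ : Module k M)
      (_ : IsScalarTower k (DiffOps k 1) M),
      IsHolonomic k 1 M ∧
      (∃ S : Finset M, Submodule.span (DiffOps k 1) (S : Set M) = ⊤) ∧
      ∀ S : Finset M, Submodule.span (DiffOps k 1) (S : Set M) = ⊤ →
        (∀ i : ℕ, Module.Finite k (generated k 1 S i)) ∧
        (∃ C : ℝ, ∀ i : ℕ, 1 ≤ i →
          (Module.finrank k (generated k 1 S i) : ℝ) / (i : ℝ) ^ 1 ≤ C) ∧
        ¬ ∃ l : ℝ, Filter.Tendsto
          (fun i : ℕ => (Module.finrank k (generated k 1 S i) : ℝ) / (i : ℝ) ^ 1)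
          Filter.atTop (nhds l) := by
  refine ⟨MM k p, inferInstance, inferInstance, inferInstance, inferInstance,
    holonomic k p hp, ⟨{e0 k p}, span_e0 k p⟩, fun S hS => ?_⟩
  obtain ⟨h1, h2, h3, h6⟩ := summary k p hp S hS
  refine ⟨h1, h6, ?_⟩
  rintro ⟨l, hl⟩
  have h4 : l = 3 / 2 := by
    rw [← h2]
    exact hl.limsup_eq.symm
  subst h4
  have h5 : ∀ᶠ i : ℕ in Filter.atTop,
      (5 / 4 : ℝ) < (Module.finrank k (generated k 1 S i) : ℝ) / (i : ℝ) ^ 1 :=
    hl.eventually (lt_mem_nhds (by norm_num))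
  obtain ⟨i, hi1, hi2⟩ := ((h3 (1 / 4) (by norm_num)).and_eventually h5).exists
  linarith
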