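import Mathlib
import Pool.Agent.MP_12ebf5_al.Defs
import Pool.Agent.MP_12ebf5_al.Final

/-!
MP_12ebf5_al, Q1: the number `n! e(M)` need not be an integer.  For every prime `p`, every field
`k` of characteristic `p` and `n = 1` there is a holonomic module with multiplicity `3 / 2`.
-/

set_option autoImplicit false

open Pool.Agent.MP12ebf5

universe u

theorem Pool.Agent.Results.MP_12ebf5_al.MultiplicityNotInteger.result
    (p : ℕ) (hp : p.Prime) (k : Type u) [Field k] [CharP k p] :
    ∃ (M : Type u) (_ : AddCommGroup M) (_ : Module (DiffOps k 1) M) (_ : Module k M)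
      (_ : IsScalarTower k (DiffOps k 1) M),
      IsHolonomic k 1 M ∧
      (∃ S : Finset M, Submodule.span (DiffOps k 1) (S : Set M) = ⊤) ∧
      ∀ S : Finset M, Submodule.span (DiffOps k 1) (S : Set M) = ⊤ →
        (∀ i : ℕ, Module.Finite k (generated k 1 S i)) ∧
        eMult k 1 S = 3 / 2 ∧
        ¬ ∃ z : ℤ, (Nat.factorial 1 : ℝ) * eMult k 1 S = (z : ℝ) := by
  refine ⟨MM k p, inferInstance, inferInstance, inferInstance, inferInstance,
    holonomic k p hp, ⟨{e0 k p}, span_e0 k p⟩, fun S hS => ?_⟩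
  obtain ⟨h1, h2, -⟩ := summary k p hp S hS
  refine ⟨h1, h2, ?_⟩
  rintro ⟨z, hz⟩
  rw [h2] at hz
  have h3 : ((3 : ℤ) : ℝ) = ((2 * z : ℤ) : ℝ) := by
    push_cast
    rw [← hz, Nat.factorial_one]
    norm_num
  have h4 : (3 : ℤ) = 2 * z := by exact_mod_cast h3
  omega
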